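import Mathlib
import Pool.Agent.H348R6.GV3

/-!
# Fine normal ultrafilters without the Galvin property

If `2 ^ κ = κ⁺` or `2 ^ κ⁺ = κ⁺⁺` then `Gal(U, κ, 2 ^ κ⁺)` fails for every fine normal ultrafilter
`U` over `P_κ(κ⁺)`.
-/

set_option autoImplicit false

namespace Pool.Agent.Results.MP_a3089e_lc.NonGalvinFineNormal

open Cardinal Set

universe u

/-- `U` is a fine normal ultrafilter over `P_κ(X)`, the set of the subsets of `X` of size less
than `κ`. -/
def FineNormal (κ : Cardinal.{u}) (X : Type u) (U : Ultrafilter {x : Set X // #x < κ}) : Prop :=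
  (∀ S : Set (Set {x : Set X // #x < κ}), #S < κ → (∀ s ∈ S, s ∈ U) → ⋂₀ S ∈ U) ∧
    (∀ a : X, {x : {x : Set X // #x < κ} | a ∈ x.1} ∈ U) ∧
    ∀ f : {x : Set X // #x < κ} → X, {x : {x : Set X // #x < κ} | f x ∈ x.1} ∈ U →
      ∃ a : X, {x : {x : Set X // #x < κ} | f x = a} ∈ U

/-- `Gal(U, μ, ν)`: any family of `ν` distinct members of `U` includes `μ` sets whose intersection
is in `U`. -/
def Gal {Y : Type u} (U : Ultrafilter Y) (μ ν : Cardinal.{u}) : Prop :=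
  ∀ S : Set (Set Y), (∀ s ∈ S, s ∈ U) → #S = ν → ∃ T ⊆ S, #T = μ ∧ ⋂₀ T ∈ U

/-- Let `κ` be uncountable and `|X| = κ⁺`. If `2 ^ κ = κ⁺` or `2 ^ κ⁺ = κ⁺⁺` then no fine normal
ultrafilter `U` over `P_κ(X)` satisfies `Gal(U, κ, 2 ^ κ⁺)`. -/
theorem result (κ : Cardinal.{u}) (X : Type u) (hκ : ℵ₀ < κ) (hX : #X = Order.succ κ)
    (hc : (2 : Cardinal.{u}) ^ κ = Order.succ κ ∨
      (2 : Cardinal.{u}) ^ Order.succ κ = Order.succ (Order.succ κ))
    (U : Ultrafilter {x : Set X // #x < κ}) (hU : FineNormal κ X U) :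
    ¬ Gal U κ (2 ^ Order.succ κ) := by
  intro hG
  obtain ⟨-, fine, normal⟩ := hU
  have hlt : κ < 2 ^ Order.succ κ := (Order.lt_succ κ).trans (cantor _)
  have key : ∃ S : Set (Set {x : Set X // #x < κ}), (∀ s ∈ S, s ∈ U) ∧ #S = 2 ^ Order.succ κ ∧
      ∀ T ⊆ S, #T = κ → ⋂₀ T ∉ U := by
    rcases hc with hc | hc
    · obtain ⟨h, hh⟩ := Pool.Agent.H348R6.GV.family_sets hκ hc
      have hcard : #(Set (Order.succ κ).ord.ToType) = 2 ^ Order.succ κ := by
        rw [mk_set, Cardinal.mk_toType, card_ord]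
      obtain ⟨S, h1, h2, h3⟩ := Pool.Agent.H348R6.GV.not_gal_of_family hκ hX U fine normal
        (Θ := Set (Order.succ κ).ord.ToType) (by rw [hcard]; exact hlt) h hh
      exact ⟨S, h1, h2.trans hcard, h3⟩
    · obtain ⟨h, hh⟩ := Pool.Agent.H348R6.GV.family_scale hκ
      have hcard : #((Order.succ (Order.succ κ)).ord.ToType) = 2 ^ Order.succ κ := by
        rw [Cardinal.mk_toType, card_ord, hc]
      obtain ⟨S, h1, h2, h3⟩ := Pool.Agent.H348R6.GV.not_gal_of_family hκ hX U fine normal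
        (Θ := (Order.succ (Order.succ κ)).ord.ToType) (by rw [hcard]; exact hlt) h hh
      exact ⟨S, h1, h2.trans hcard, h3⟩
  obtain ⟨S, h1, h2, h3⟩ := key
  obtain ⟨T, hT, hTκ, hTU⟩ := hG S h1 h2
  exact h3 T hT hTκ hTU

end Pool.Agent.Results.MP_a3089e_lc.NonGalvinFineNormal
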